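import Pool.Agent.Work.MP_b0c12c_li.Abs
import Pool.Agent.Work.MP_b0c12c_rp.B_DGV

/-! # Every point of an interval `[0, c]` is a limit point of the gaps at the record scale (helper69) -/

set_option autoImplicit false

namespace Pool.LGR

open Finset Filter
open Pool.LGP Pool.LGC

/-- The primes in `[X, 5 X]` which are followed by a gap near `x f(X)`. -/
noncomputable def LV (X : ℕ) (x η : ℝ) : Finset ℕ :=
  open Classical in (range (5 * X)).filter (fun l => X ≤ Nat.nth Nat.Prime l ∧
    Nat.nth Nat.Prime l ≤ 5 * X ∧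
    |((Nat.nth Nat.Prime (l + 1) : ℝ) - Nat.nth Nat.Prime l) - x * ff X| ≤ η * ff X)

/-- LIM: every point of an interval `[0, c]` is a limit point, with many primes. -/
def Stmt_LIM : Prop :=
  ∀ ε : ℝ, 0 < ε → ∃ c : ℝ, 0 < c ∧ ∀ x ∈ Set.Icc 0 c, ∀ η : ℝ, 0 < η →
    ∃ᶠ X : ℕ in atTop, (X : ℝ) ^ (1 - ε) ≤ (LV X x η).card

theorem p_LIM (hP : Stmt_PAI) : Stmt_LIM := by
  classical
  intro ε hε
  obtain ⟨κ, K, hκ, hK, h⟩ := hP ε hε
  have hff0 : ∀ᶠ X : ℕ in atTop, 0 ≤ ff X := PAI_ff_tendsto.eventually_ge_atTop 0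
  have hclosed : IsClosed {x : ℝ | ∀ η : ℝ, 0 < η →
      ∃ᶠ X : ℕ in atTop, (X : ℝ) ^ (1 - ε) ≤ (LV X x η).card} := by
    apply Pool.LI.closed_of_perturb
      (fun x η => ∃ᶠ X : ℕ in atTop, (X : ℝ) ^ (1 - ε) ≤ (LV X x η).card)
    intro x y η η' hxy hy
    refine (hy.and_eventually hff0).mono ?_
    rintro X ⟨hX, hX0⟩
    refine hX.trans ?_
    have hsub : LV X y η ⊆ LV X x (η + η') := by
      intro l hl
      unfold LV at hl ⊢
      rw [mem_filter] at hl ⊢
      obtain ⟨h1, h2, h3, h4⟩ := hl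
      refine ⟨h1, h2, h3, ?_⟩
      have h5 : ((Nat.nth Nat.Prime (l + 1) : ℝ) - Nat.nth Nat.Prime l) - x * ff X =
          (((Nat.nth Nat.Prime (l + 1) : ℝ) - Nat.nth Nat.Prime l) - y * ff X) +
            (y - x) * ff X := by ring
      rw [h5]
      refine (abs_add_le _ _).trans ?_
      rw [abs_mul, abs_of_nonneg hX0, abs_sub_comm y x, add_mul]
      exact add_le_add h4 (mul_le_mul_of_nonneg_right hxy hX0)
    exact_mod_cast card_le_card hsub
  obtain ⟨c, hc, hsub⟩ := Pool.LI.interval_of_closed _ hclosed κ hκ K (by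
    intro b hb hb'
    by_contra hcon
    push Not at hcon
    have hex : ∀ q : Fin K × Fin K, ∃ η : ℝ, 0 < η ∧ (q.1 < q.2 →
        ∀ᶠ X : ℕ in atTop, ¬ (X : ℝ) ^ (1 - ε) ≤ (LV X (b q.2 - b q.1) η).card ∧
          η ≤ b q.2 - b q.1) := by
      rintro ⟨i, j⟩
      by_cases hij : i < j
      · have h1 := hcon i j hij
        simp only [Set.mem_ofPred_eq] at h1
        push Not at h1
        obtain ⟨η, hη, h2⟩ := h1
        have hd : 0 < b j - b i := sub_pos.mpr (hb hij)
        refine ⟨min η (b j - b i), lt_min hη hd, fun _ => ?_⟩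
        filter_upwards [h2, hff0] with X h3 h4
        refine ⟨?_, min_le_right _ _⟩
        rw [not_le]
        refine lt_of_le_of_lt ?_ h3
        have hsub : LV X (b j - b i) (min η (b j - b i)) ⊆ LV X (b j - b i) η := by
          intro l hl
          unfold LV at hl ⊢
          rw [mem_filter] at hl ⊢
          obtain ⟨h5, h6, h7, h8⟩ := hl
          exact ⟨h5, h6, h7, h8.trans (mul_le_mul_of_nonneg_right (min_le_left _ _) h4)⟩
        exact_mod_cast card_le_card hsub
      · exact ⟨1, one_pos, fun h => absurd h hij⟩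
    choose η hη0 hη using hex
    have : Nonempty (Fin K × Fin K) := ⟨(⟨0, by omega⟩, ⟨0, by omega⟩)⟩
    obtain ⟨q₀, hq₀⟩ := Finite.exists_min η
    have hall : ∀ᶠ X : ℕ in atTop, ∀ q : Fin K × Fin K, q.1 < q.2 →
        ¬ (X : ℝ) ^ (1 - ε) ≤ (LV X (b q.2 - b q.1) (η q)).card ∧ η q ≤ b q.2 - b q.1 := by
      rw [eventually_all]
      intro q
      by_cases hq : q.1 < q.2
      · exact (hη q hq).mono (fun X hX _ => hX)
      · exact Eventually.of_forall (fun X h => absurd h hq)
    have hF0 : (0 : ℝ) < (Nat.factorial K : ℝ) := by exact_mod_cast Nat.factorial_pos K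
    have hbig : ∀ᶠ X : ℕ in atTop, (Nat.factorial K : ℝ) ≤ η q₀ * ff X := by
      have h1 : Tendsto (fun X : ℕ => η q₀ * ff X) atTop atTop :=
        PAI_ff_tendsto.const_mul_atTop (hη0 q₀)
      exact h1.eventually_ge_atTop _
    obtain ⟨X, h1, h2, h3, h4⟩ := (h.and (hall.and (hbig.and hff0))).exists
    set a : Fin K → ℕ := fun i => Nat.factorial K * ⌊b i * ff X / Nat.factorial K⌋₊ with ha
    have hfl : ∀ i, (a i : ℝ) ≤ b i * ff X ∧ b i * ff X - Nat.factorial K ≤ a i := by
      intro i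
      have h0 : 0 ≤ b i * ff X / Nat.factorial K :=
        div_nonneg (mul_nonneg (hb' i).1 h4) hF0.le
      have e1 := Nat.floor_le h0
      have e2 := Nat.lt_floor_add_one (b i * ff X / Nat.factorial K)
      simp only [ha]
      push_cast
      constructor
      · calc (Nat.factorial K : ℝ) * (⌊b i * ff X / Nat.factorial K⌋₊ : ℝ)
            ≤ Nat.factorial K * (b i * ff X / Nat.factorial K) :=
              mul_le_mul_of_nonneg_left e1 hF0.le
          _ = b i * ff X := by field_simp
      · have e3 : b i * ff X = Nat.factorial K * (b i * ff X / Nat.factorial K) := by field_simp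
        have e4 := mul_lt_mul_of_pos_left e2 hF0
        nlinarith
    have hmono : StrictMono a := by
      intro i j hij
      obtain ⟨-, e1⟩ := h2 (i, j) hij
      have e2 := hq₀ (i, j)
      have e3 : (Nat.factorial K : ℝ) ≤ (b j - b i) * ff X := by
        refine h3.trans (mul_le_mul_of_nonneg_right (e2.trans e1) h4)
      have e4 : b i * ff X / Nat.factorial K + 1 ≤ b j * ff X / Nat.factorial K := by
        rw [div_add_one hF0.ne', div_le_div_iff_of_pos_right hF0]
        linarith
      simp only [ha]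
      apply Nat.mul_lt_mul_of_pos_left _ (Nat.factorial_pos K)
      have e5 : ⌊b i * ff X / Nat.factorial K⌋₊ + 1 ≤ ⌊b j * ff X / Nat.factorial K⌋₊ := by
        rw [← Nat.floor_add_one (div_nonneg (mul_nonneg (hb' i).1 h4) hF0.le)]
        exact Nat.floor_le_floor e4
      omega
    obtain ⟨i, j, hij, hc⟩ := h1 a hmono
      (fun i => (hfl i).1.trans (mul_le_mul_of_nonneg_right (hb' i).2 h4))
      (fun p hp => DGV_adm (K := K) (fun i => ⌊b i * ff X / Nat.factorial K⌋₊) p hp)
    obtain ⟨e1, -⟩ := h2 (i, j) hij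
    apply e1
    refine hc.trans ?_
    have hsub : GV X (a j - a i) ⊆ LV X (b j - b i) (η (i, j)) := by
      intro l hl
      unfold GV at hl
      unfold LV
      rw [mem_filter] at hl ⊢
      obtain ⟨h5, h6, h7, h8⟩ := hl
      refine ⟨h5, h6, h7, ?_⟩
      have hle : a i ≤ a j := (hmono hij).le
      have h9 : (Nat.nth Nat.Prime (l + 1) : ℝ) - Nat.nth Nat.Prime l = (a j : ℝ) - a i := by
        rw [h8]
        push_cast [Nat.cast_sub hle]
        ring
      rw [h9]
      have e2 := hfl i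
      have e3 := hfl j
      have e4 : (Nat.factorial K : ℝ) ≤ η (i, j) * ff X :=
        h3.trans (mul_le_mul_of_nonneg_right (hq₀ (i, j)) h4)
      rw [abs_le]
      constructor
      · linarith [e2.1, e2.2, e3.1, e3.2]
      · linarith [e2.1, e2.2, e3.1, e3.2]
    exact_mod_cast card_le_card hsub)
  exact ⟨c, hc, fun x hx => hsub hx⟩

end Pool.LGR
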