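import Pool.Agent.Work.MP_b0c12c_li.Abs
import Pool.Agent.Work.MP_b0c12c_rp.B_PAI

/-! # Every point of an interval `[0, c]` is a limit point of the gaps over `log p`, with positive
upper density (helper69) -/

set_option autoImplicit false

namespace Pool.LI

open Finset Filter

/-- The number of integers near a point. -/
theorem card_near (S : Finset ℕ) (t r : ℝ) (hr : 0 ≤ r) (h : ∀ n ∈ S, |(n : ℝ) - t| ≤ r) :
    (S.card : ℝ) ≤ 2 * r + 1 := by
  rcases S.eq_empty_or_nonempty with he | hne
  · rw [he]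
    simp
    linarith
  · set n₀ := S.min' hne with hn₀
    have h0 := abs_le.mp (h n₀ (S.min'_mem hne))
    have hsub : S ⊆ Icc n₀ (n₀ + ⌊2 * r⌋₊) := by
      intro n hn
      have h1 := abs_le.mp (h n hn)
      have h2 : n₀ ≤ n := S.min'_le n hn
      rw [mem_Icc]
      refine ⟨h2, ?_⟩
      have h3 : n - n₀ ≤ ⌊2 * r⌋₊ := by
        apply Nat.le_floor
        rw [Nat.cast_sub h2]
        linarith
      omega
    have h1 := card_le_card hsub
    rw [Nat.card_Icc] at h1
    have h2 : S.card ≤ ⌊2 * r⌋₊ + 1 := by omega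
    have h3 : (S.card : ℝ) ≤ (⌊2 * r⌋₊ : ℝ) + 1 := by exact_mod_cast h2
    have h4 := Nat.floor_le (show 0 ≤ 2 * r by linarith)
    linarith

/-- Indices of the primes up to `X` which are followed by a gap near `x log p`. -/
noncomputable def Lgp (X : ℕ) (x η : ℝ) : Finset ℕ :=
  open Classical in (range X).filter (fun l => Nat.nth Nat.Prime (l + 1) ≤ X ∧
    |((Nat.nth Nat.Prime (l + 1) : ℝ) - Nat.nth Nat.Prime l) /
      Real.log (Nat.nth Nat.Prime l) - x| ≤ η)

theorem Lgp_mono (X : ℕ) (x y η η' : ℝ) (h : |x - y| ≤ η') : Lgp X y η ⊆ Lgp X x (η + η') := by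
  intro l hl
  unfold Lgp at hl ⊢
  rw [mem_filter] at hl ⊢
  obtain ⟨h1, h2, h3⟩ := hl
  refine ⟨h1, h2, ?_⟩
  have h4 : ((Nat.nth Nat.Prime (l + 1) : ℝ) - Nat.nth Nat.Prime l) /
      Real.log (Nat.nth Nat.Prime l) - x =
      (((Nat.nth Nat.Prime (l + 1) : ℝ) - Nat.nth Nat.Prime l) /
      Real.log (Nat.nth Nat.Prime l) - y) + (y - x) := by ring
  rw [h4]
  refine (abs_add_le _ _).trans (add_le_add h3 ?_)
  rw [abs_sub_comm]
  exact h

theorem Lgp_ncard (X : ℕ) (x η : ℝ) :
    {l : ℕ | Nat.nth Nat.Prime (l + 1) ≤ X ∧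
      |((Nat.nth Nat.Prime (l + 1) : ℝ) - Nat.nth Nat.Prime l) /
        Real.log (Nat.nth Nat.Prime l) - x| ≤ η} = ((Lgp X x η : Finset ℕ) : Set ℕ) := by
  ext l
  unfold Lgp
  rw [mem_coe, mem_filter, mem_range, Set.mem_ofPred_eq]
  constructor
  · rintro ⟨h1, h2⟩
    refine ⟨?_, h1, h2⟩
    have := Nat.add_two_le_nth_prime (l + 1)
    omega
  · rintro ⟨-, h1, h2⟩
    exact ⟨h1, h2⟩

/-- Numerical conditions on `X`. -/
theorem log_ev (c M η : ℝ) (hc : 0 < c) (hη : 0 < η) :
    ∀ᶠ X : ℕ in atTop, 1 ≤ Real.log X ∧ 3 * Real.log X ≤ c / 4 * X ∧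
      3 * Real.log X ≤ X ∧ (X : ℝ) ^ (1 / 2 : ℝ) < c / 4 * X ∧
      M * (1 + η) ≤ 3 / 4 * η * Real.log X ∧ M + 1 ≤ Real.log X ∧ 1 ≤ c / 4 * X := by
  have t0 : Tendsto (fun X : ℕ => (X : ℝ)) atTop atTop := tendsto_natCast_atTop_atTop
  have t1 : Tendsto (fun X : ℕ => Real.log X) atTop atTop := Real.tendsto_log_atTop.comp t0
  have h1 : ∀ᶠ x : ℝ in atTop, ‖Real.log x‖ ≤ (min (c / 12) (1 / 3)) * ‖x‖ := by
    have := Real.isLittleO_log_id_atTop.bound (show (0 : ℝ) < min (c / 12) (1 / 3) by positivity)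
    simpa using this
  have h2 : ∀ᶠ x : ℝ in atTop, 4 / c < x ^ (1 / 2 : ℝ) :=
    (tendsto_rpow_atTop (by norm_num)).eventually_gt_atTop _
  filter_upwards [t0.eventually h1, t0.eventually h2, t1.eventually_ge_atTop 1,
    t1.eventually_ge_atTop (M + 1), t1.eventually_ge_atTop (M * (1 + η) / (3 / 4 * η)),
    eventually_ge_atTop 1, t0.eventually_ge_atTop (4 / c)] with X h1 h2 h3 h4 h5 h6 h7
  have hX : (0 : ℝ) < X := by exact_mod_cast h6
  rw [Real.norm_of_nonneg (by linarith), Real.norm_of_nonneg hX.le] at h1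
  have e1 : Real.log X ≤ c / 12 * X :=
    h1.trans (mul_le_mul_of_nonneg_right (min_le_left _ _) hX.le)
  have e2 : Real.log X ≤ 1 / 3 * X :=
    h1.trans (mul_le_mul_of_nonneg_right (min_le_right _ _) hX.le)
  refine ⟨h3, by linarith, by linarith, ?_, ?_, h4, ?_⟩
  · have e3 : (X : ℝ) ^ (1 / 2 : ℝ) * (X : ℝ) ^ (1 / 2 : ℝ) = X := by
      rw [← Real.rpow_add hX]
      norm_num
    have e4 : 0 < (X : ℝ) ^ (1 / 2 : ℝ) := Real.rpow_pos_of_pos hX _
    have e5 : 1 < c / 4 * (X : ℝ) ^ (1 / 2 : ℝ) := by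
      rw [div_lt_iff₀ hc] at h2
      linarith
    nlinarith
  · rw [div_le_iff₀ (by positivity)] at h5
    linarith
  · rw [div_le_iff₀ hc] at h7
    linarith

theorem log_lim (hW : ∃ K : ℕ, ∀ (b : Fin K → ℝ) (Lam del : ℝ), StrictMono b → 0 < del →
      ∃ c : ℝ, 0 < c ∧ ∀ᶠ X : ℕ in atTop,
        c * X ≤ ({n : ℕ | 1 ≤ n ∧ n ≤ X ∧ ∃ a : Fin K → ℕ, StrictMono a ∧
          (∀ j, |(a j : ℝ) - (n + b j * Real.log X)| ≤ del * Real.log X) ∧
          2 ≤ {j : Fin K | (a j).Prime}.ncard ∧
          ∀ q : ℕ, |(q : ℝ) - n| ≤ Lam * Real.log X → (∀ j, q ≠ a j) →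
            ∃ p : ℕ, p.Prime ∧ (p : ℝ) ≤ (X : ℝ) ^ (1 / 2 : ℝ) ∧ p ∣ q}.ncard : ℝ)) :
    ∃ c : ℝ, 0 < c ∧ ∀ x ∈ Set.Icc 0 c, ∀ η : ℝ, 0 < η → ∃ δ : ℝ, 0 < δ ∧
      ∃ᶠ X : ℕ in atTop, δ * X / Real.log X ≤ ({l : ℕ | Nat.nth Nat.Prime (l + 1) ≤ X ∧
        |((Nat.nth Nat.Prime (l + 1) : ℝ) - Nat.nth Nat.Prime l) /
          Real.log (Nat.nth Nat.Prime l) - x| ≤ η}.ncard : ℝ) := by
  classical
  obtain ⟨K, hK⟩ := hW
  have hclosed : IsClosed {x : ℝ | ∀ η : ℝ, 0 < η → ∃ δ : ℝ, 0 < δ ∧
      ∃ᶠ X : ℕ in atTop, δ * X / Real.log X ≤ (Lgp X x η).card} := by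
    apply closed_of_perturb (fun x η => ∃ δ : ℝ, 0 < δ ∧
      ∃ᶠ X : ℕ in atTop, δ * X / Real.log X ≤ (Lgp X x η).card)
    rintro x y η η' hxy ⟨δ, hδ, hy⟩
    refine ⟨δ, hδ, hy.mono (fun X hX => hX.trans ?_)⟩
    exact_mod_cast card_le_card (Lgp_mono X x y η η' hxy)
  obtain ⟨c, hc, hsub⟩ := interval_of_closed _ hclosed 1 one_pos K (by
    intro b hb hb'
    by_contra hcon
    push Not at hcon
    have hex : ∀ q : Fin K × Fin K, ∃ η : ℝ, 0 < η ∧ (q.1 < q.2 → ∀ δ : ℝ, 0 < δ →
        ∀ᶠ X : ℕ in atTop, ((Lgp X (b q.2 - b q.1) η).card : ℝ) < δ * X / Real.log X) := by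
      rintro ⟨i, j⟩
      by_cases hij : i < j
      · have h1 := hcon i j hij
        simp only [Set.mem_ofPred_eq] at h1
        push Not at h1
        obtain ⟨η, hη, h2⟩ := h1
        exact ⟨η, hη, fun _ => h2⟩
      · exact ⟨1, one_pos, fun h => absurd h hij⟩
    choose η hη0 hη using hex
    obtain ⟨η₀, hη₀, hη₀le⟩ : ∃ η₀ : ℝ, 0 < η₀ ∧ ∀ q, η₀ ≤ η q := by
      rcases isEmpty_or_nonempty (Fin K × Fin K) with he | hne
      · exact ⟨1, one_pos, fun q => he.elim q⟩
      · obtain ⟨q₀, hq₀⟩ := Finite.exists_min η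
        exact ⟨η q₀, hη0 q₀, hq₀⟩
    set del : ℝ := min (η₀ / 8) 1 with hdel
    have hdel0 : 0 < del := lt_min (by linarith) one_pos
    have hdel1 : del ≤ 1 := min_le_right _ _
    have hdel8 : del ≤ η₀ / 8 := min_le_left _ _
    obtain ⟨c, hc, hX1⟩ := hK b 3 del hb hdel0
    set M : ℝ := |Real.log (c / 4)| + Real.log 2 with hM
    have hM0 : 0 ≤ M := by
      have := abs_nonneg (Real.log (c / 4))
      have := Real.log_nonneg (show (1 : ℝ) ≤ 2 by norm_num)
      linarith
    set δ : ℝ := c / (16 * ((K : ℝ) ^ 2 + 1) * (2 * del + 1)) with hδ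
    have hδ0 : 0 < δ := by positivity
    have hall : ∀ᶠ X : ℕ in atTop, ∀ q : Fin K × Fin K, q.1 < q.2 →
        ((Lgp (2 * X) (b q.2 - b q.1) (η q)).card : ℝ) <
          δ * (2 * X : ℕ) / Real.log (2 * X : ℕ) := by
      rw [eventually_all]
      intro q
      by_cases hq : q.1 < q.2
      · have t2 : Tendsto (fun X : ℕ => 2 * X) atTop atTop :=
          tendsto_id.const_mul_atTop' (by norm_num)
        exact (t2.eventually (hη q hq δ hδ0)).mono (fun X hX _ => hX)
      · exact Eventually.of_forall (fun X h => absurd h hq)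
    obtain ⟨X, h1, h2, h3, h4, h5, h6, h7, h8, h9⟩ :=
      (hX1.and (hall.and (log_ev c M η₀ hc hη₀))).exists
    set L : ℝ := Real.log X with hL
    have hXpos : (0 : ℝ) < X := by linarith
    set W : Set ℕ := {n : ℕ | 1 ≤ n ∧ n ≤ X ∧ ∃ a : Fin K → ℕ, StrictMono a ∧
          (∀ j, |(a j : ℝ) - (n + b j * Real.log X)| ≤ del * Real.log X) ∧
          2 ≤ {j : Fin K | (a j).Prime}.ncard ∧
          ∀ q : ℕ, |(q : ℝ) - n| ≤ 3 * Real.log X → (∀ j, q ≠ a j) →
            ∃ p : ℕ, p.Prime ∧ (p : ℝ) ≤ (X : ℝ) ^ (1 / 2 : ℝ) ∧ p ∣ q} with hWdef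
    set P : Finset (Fin K × Fin K) := univ.filter (fun q => q.1 < q.2) with hP
    set Nq : Fin K × Fin K → ℕ → Finset ℕ := fun q l => (range (X + 1)).filter (fun n =>
      |(n : ℝ) - ((Nat.nth Nat.Prime l : ℝ) - b q.1 * L)| ≤ del * L) with hNq
    -- the cover
    have hcov : W ⊆ (((range (⌊c / 2 * X⌋₊ + 1)) ∪ P.biUnion (fun q =>
        (Lgp (2 * X) (b q.2 - b q.1) (η q)).biUnion (fun l => Nq q l)) : Finset ℕ) : Set ℕ) := by
      intro n hn
      obtain ⟨hn1, hn2, a, ha1, ha2, ha3, ha4⟩ := hn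
      rw [mem_coe, mem_union]
      by_cases hnc : (n : ℝ) ≤ c / 2 * X
      · left
        rw [mem_range]
        have := Nat.le_floor hnc
        omega
      · right
        push Not at hnc
        set S : Finset (Fin K) := univ.filter (fun j => (a j).Prime) with hS
        have hScard : 2 ≤ S.card := by
          have : {j : Fin K | (a j).Prime} = ((S : Finset (Fin K)) : Set (Fin K)) := by
            ext j
            simp [hS]
          rw [this, Set.ncard_coe_finset] at ha3
          exact ha3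
        have hSne : S.Nonempty := card_pos.mp (by omega)
        set i := S.min' hSne with hi
        have hiS : i ∈ S := S.min'_mem hSne
        have hS'ne : (S.erase i).Nonempty := by
          rw [← card_pos, card_erase_of_mem hiS]
          omega
        set j := (S.erase i).min' hS'ne with hj
        have hjS' : j ∈ S.erase i := (S.erase i).min'_mem hS'ne
        have hjS : j ∈ S := mem_of_mem_erase hjS'
        have hij : i < j := lt_of_le_of_ne (S.min'_le j hjS) (ne_of_mem_erase hjS').symm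
        have hip : (a i).Prime := (mem_filter.mp hiS).2
        have hjp : (a j).Prime := (mem_filter.mp hjS).2
        have hnone : ∀ k, i < k → k < j → ¬ (a k).Prime := by
          intro k hik hkj hkp
          have hkS : k ∈ S.erase i :=
            mem_erase.mpr ⟨hik.ne', mem_filter.mpr ⟨mem_univ _, hkp⟩⟩
          exact absurd ((S.erase i).min'_le k hkS) (not_le.mpr hkj)
        have hai := abs_le.mp (ha2 i)
        have haj := abs_le.mp (ha2 j)
        have hbi := hb' i
        have hbj := hb' j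
        have hL0 : 0 < L := by linarith
        have hdL : del * L ≤ L := by nlinarith
        have hbiL0 : 0 ≤ b i * L := mul_nonneg hbi.1 hL0.le
        have hbjL : b j * L ≤ L := by nlinarith [hbj.2]
        rw [← hL] at hai haj
        -- size of `a i`
        have hlow : c / 4 * X ≤ (a i : ℝ) := by linarith
        have hbetween : ∀ q, a i < q → q < a j → ¬ q.Prime := by
          intro q hq1 hq2 hqp
          have hq1' : (a i : ℝ) < q := by exact_mod_cast hq1
          have hq2' : (q : ℝ) < a j := by exact_mod_cast hq2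
          have hne : ∀ k, q ≠ a k := by
            intro k hk
            rw [hk] at hq1 hq2 hqp
            exact hnone k (ha1.lt_iff_lt.mp hq1) (ha1.lt_iff_lt.mp hq2) hqp
          obtain ⟨p, hp1, hp2, hp3⟩ := ha4 q (by
            rw [← hL, abs_le]
            constructor <;> linarith) hne
          have hpq : p = q := (Nat.prime_dvd_prime_iff_eq hp1 hqp).mp hp3
          rw [hpq] at hp2
          linarith
        obtain ⟨hl1, hl2⟩ := Pool.LGR.PAI_nth (a i) (a j) hip hjp (ha1 hij) hbetween
        set l := Nat.count Nat.Prime (a i) with hl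
        rw [mem_biUnion]
        refine ⟨(i, j), mem_filter.mpr ⟨mem_univ _, hij⟩, ?_⟩
        rw [mem_biUnion]
        have hajX : (a j : ℝ) ≤ 2 * X := by
          have : (n : ℝ) ≤ X := by exact_mod_cast hn2
          linarith
        refine ⟨l, ?_, ?_⟩
        · unfold Lgp
          rw [mem_filter, mem_range]
          have hajX' : a j ≤ 2 * X := by exact_mod_cast hajX
          refine ⟨?_, by rw [hl2]; exact hajX', ?_⟩
          · have h10 := Nat.add_two_le_nth_prime (l + 1)
            rw [hl2] at h10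
            omega
          · rw [hl1, hl2]
            -- logarithm of `a i`
            have hai0 : (0 : ℝ) < a i := by
              have : 0 < c / 4 * X := by positivity
              linarith
            have hlg1 : L - M ≤ Real.log (a i) := by
              have e1 : Real.log (c / 4 * X) ≤ Real.log (a i) :=
                Real.log_le_log (by positivity) hlow
              rw [Real.log_mul (by positivity) hXpos.ne'] at e1
              have e2 := neg_abs_le (Real.log (c / 4))
              have e3 := Real.log_nonneg (show (1 : ℝ) ≤ 2 by norm_num)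
              linarith
            have hlg2 : Real.log (a i) ≤ L + M := by
              have e1 : Real.log (a i) ≤ Real.log (2 * X) := by
                apply Real.log_le_log hai0
                have : (a i : ℝ) < a j := by exact_mod_cast ha1 hij
                linarith
              rw [Real.log_mul (by norm_num) hXpos.ne'] at e1
              have e2 := abs_nonneg (Real.log (c / 4))
              linarith
            have hlpos : 0 < Real.log (a i) := by linarith
            have hβ0 : 0 ≤ b j - b i := (sub_pos.mpr (hb hij)).le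
            have hβ1 : b j - b i ≤ 1 := by linarith
            have e4 : ((a j : ℝ) - a i) / Real.log (a i) - (b j - b i) =
                (((a j : ℝ) - a i - (b j - b i) * L) + (b j - b i) * (L - Real.log (a i))) /
                  Real.log (a i) := by
              field_simp
              ring
            rw [e4, abs_div, abs_of_pos hlpos, div_le_iff₀ hlpos]
            have e5 : |(a j : ℝ) - a i - (b j - b i) * L| ≤ 2 * del * L := by
              rw [abs_le]
              constructor <;> linarith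
            have e6 : |(b j - b i) * (L - Real.log (a i))| ≤ M := by
              rw [abs_mul, abs_of_nonneg hβ0]
              have e7 : |L - Real.log (a i)| ≤ M := by
                rw [abs_le]
                constructor <;> linarith
              calc (b j - b i) * |L - Real.log (a i)| ≤ 1 * M :=
                    mul_le_mul hβ1 e7 (abs_nonneg _) (by norm_num)
                _ = M := one_mul _
            have e8 := hη₀le (i, j)
            calc |(a j : ℝ) - a i - (b j - b i) * L + (b j - b i) * (L - Real.log (a i))|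
                ≤ 2 * del * L + M := (abs_add_le _ _).trans (add_le_add e5 e6)
              _ ≤ η₀ / 4 * L + M := by nlinarith
              _ ≤ η₀ * (L - M) := by linarith
              _ ≤ η₀ * Real.log (a i) := mul_le_mul_of_nonneg_left hlg1 hη₀.le
              _ ≤ η (i, j) * Real.log (a i) := mul_le_mul_of_nonneg_right e8 hlpos.le
        · simp only [hNq]
          rw [mem_filter, mem_range, hl1]
          refine ⟨by omega, ?_⟩
          rw [abs_le]
          constructor <;> linarith
    -- counting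
    have hcount := Set.ncard_le_ncard hcov (Finset.finite_toSet _)
    rw [Set.ncard_coe_finset] at hcount
    have hNqc : ∀ q l, ((Nq q l).card : ℝ) ≤ 2 * (del * L) + 1 := by
      intro q l
      apply card_near _ ((Nat.nth Nat.Prime l : ℝ) - b q.1 * L) (del * L)
        (mul_nonneg hdel0.le (by linarith))
      intro n hn
      simp only [hNq] at hn
      exact (mem_filter.mp hn).2
    have hL1 : 1 ≤ L := h3
    have hNqc' : 2 * (del * L) + 1 ≤ (2 * del + 1) * L := by nlinarith
    have hPcard : (P.card : ℝ) ≤ (K : ℝ) ^ 2 := by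
      have : P.card ≤ K ^ 2 := by
        refine (card_filter_le _ _).trans ?_
        simp [sq]
      exact_mod_cast this
    have hlog2X : L ≤ Real.log ((2 * X : ℕ) : ℝ) := by
      apply Real.log_le_log hXpos
      push_cast
      linarith
    have hbU : ((P.biUnion (fun q => (Lgp (2 * X) (b q.2 - b q.1) (η q)).biUnion
        (fun l => Nq q l))).card : ℝ) ≤ c / 8 * X := by
      have e1 : ((P.biUnion (fun q => (Lgp (2 * X) (b q.2 - b q.1) (η q)).biUnion
          (fun l => Nq q l))).card : ℝ) ≤ ∑ q ∈ P, ∑ l ∈ Lgp (2 * X) (b q.2 - b q.1) (η q),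
            ((Nq q l).card : ℝ) := by
        have : (P.biUnion (fun q => (Lgp (2 * X) (b q.2 - b q.1) (η q)).biUnion
          (fun l => Nq q l))).card ≤ ∑ q ∈ P, ∑ l ∈ Lgp (2 * X) (b q.2 - b q.1) (η q),
            (Nq q l).card :=
          card_biUnion_le.trans (sum_le_sum (fun q _ => card_biUnion_le))
        exact_mod_cast this
      have e2 : ∀ q ∈ P, ∑ l ∈ Lgp (2 * X) (b q.2 - b q.1) (η q), ((Nq q l).card : ℝ) ≤
          δ * (2 * X) * (2 * del + 1) := by
        intro q hq
        have hq' := (mem_filter.mp hq).2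
        have e3 := h2 q hq'
        have e4 : ∑ l ∈ Lgp (2 * X) (b q.2 - b q.1) (η q), ((Nq q l).card : ℝ) ≤
            ((Lgp (2 * X) (b q.2 - b q.1) (η q)).card : ℝ) * ((2 * del + 1) * L) := by
          refine (sum_le_sum (fun l _ => (hNqc q l).trans hNqc')).trans (le_of_eq ?_)
          rw [sum_const, nsmul_eq_mul]
        refine e4.trans ?_
        have e5 : δ * ((2 * X : ℕ) : ℝ) / Real.log ((2 * X : ℕ) : ℝ) ≤ δ * (2 * X) / L := by
          push_cast at hlog2X ⊢
          apply div_le_div_of_nonneg_left (by positivity) (by linarith) hlog2X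
        calc ((Lgp (2 * X) (b q.2 - b q.1) (η q)).card : ℝ) * ((2 * del + 1) * L)
            ≤ (δ * (2 * X) / L) * ((2 * del + 1) * L) :=
              mul_le_mul_of_nonneg_right (e3.le.trans e5) (by positivity)
          _ = δ * (2 * X) * (2 * del + 1) := by
              field_simp
      refine e1.trans ((sum_le_sum e2).trans ?_)
      rw [sum_const, nsmul_eq_mul]
      have e6 : δ * (16 * ((K : ℝ) ^ 2 + 1) * (2 * del + 1)) = c := by
        rw [hδ]
        field_simp
      have e7 : (P.card : ℝ) * (δ * (2 * X) * (2 * del + 1)) ≤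
          ((K : ℝ) ^ 2 + 1) * (δ * (2 * X) * (2 * del + 1)) :=
        mul_le_mul_of_nonneg_right (by linarith) (by positivity)
      refine e7.trans (le_of_eq ?_)
      calc ((K : ℝ) ^ 2 + 1) * (δ * (2 * X) * (2 * del + 1)) =
          (δ * (16 * ((K : ℝ) ^ 2 + 1) * (2 * del + 1))) / 8 * X := by ring
        _ = c / 8 * X := by rw [e6]
    have hfin : (W.ncard : ℝ) ≤ (⌊c / 2 * X⌋₊ : ℝ) + 1 + c / 8 * X := by
      have e1 := hcount.trans (card_union_le _ _)
      rw [card_range] at e1
      have e2 : (W.ncard : ℝ) ≤ ((⌊c / 2 * X⌋₊ : ℝ) + 1) +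
          ((P.biUnion (fun q => (Lgp (2 * X) (b q.2 - b q.1) (η q)).biUnion
          (fun l => Nq q l))).card : ℝ) := by exact_mod_cast e1
      linarith
    have hfl := Nat.floor_le (show 0 ≤ c / 2 * (X : ℝ) by positivity)
    have h1' : c * X ≤ (W.ncard : ℝ) := h1
    have : 0 < c * X := by positivity
    linarith)
  refine ⟨c, hc, fun x hx η hη => ?_⟩
  obtain ⟨δ, hδ, h⟩ := hsub hx η hη
  refine ⟨δ, hδ, h.mono (fun X hX => ?_)⟩
  rw [Lgp_ncard, Set.ncard_coe_finset]
  exact hX

end Pool.LI
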