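import Mathlib

/-! # A closed set of reals which meets the differences of all `N` point sets contains an interval

(After J. Pintz; helper69.) -/

set_option autoImplicit false

namespace Pool.LI

open Filter

/-- A closed set that meets the positive differences of every `N`-point subset of `[0, κ]`
contains an interval `[0, c]`. -/
theorem interval_of_closed (A : Set ℝ) (hA : IsClosed A) (κ : ℝ) (hκ : 0 < κ) (N : ℕ)
    (h : ∀ b : Fin N → ℝ, StrictMono b → (∀ i, 0 ≤ b i ∧ b i ≤ κ) →
      ∃ i j, i < j ∧ b j - b i ∈ A) :
    ∃ c : ℝ, 0 < c ∧ Set.Icc 0 c ⊆ A := by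
  by_contra hcon
  push Not at hcon
  have h1 : ∀ c : ℝ, 0 < c → ∃ x : ℝ, 0 < x ∧ x ≤ c ∧ x ∉ A := by
    intro c hc
    have h2 := hcon c hc
    rw [Set.not_subset] at h2
    obtain ⟨x, hx, hxA⟩ := h2
    rcases hx.1.eq_or_lt with h0 | h0
    · obtain ⟨ε, hε, hb⟩ := Metric.isOpen_iff.mp hA.isOpen_compl x hxA
      refine ⟨min (ε / 2) c, lt_min (by linarith) hc, min_le_right _ _, ?_⟩
      apply hb
      rw [Metric.mem_ball, Real.dist_eq, ← h0, sub_zero, abs_of_pos (lt_min (by linarith) hc)]
      exact lt_of_le_of_lt (min_le_left _ _) (by linarith)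
    · exact ⟨x, h0, hx.2, hxA⟩
  have h2 : ∀ J : ℕ, ∀ c : ℝ, 0 < c → ∃ b : Fin J → ℝ, StrictMono b ∧
      (∀ i, 0 < b i ∧ b i ≤ c) ∧ ∀ i j, i < j → b j - b i ∉ A := by
    intro J
    induction J with
    | zero =>
      intro c _
      exact ⟨fun i => i.elim0, fun i => i.elim0, fun i => i.elim0, fun i => i.elim0⟩
    | succ J ih =>
      intro c hc
      obtain ⟨x, hx0, hxc, hxA⟩ := h1 c hc
      obtain ⟨ε, hε, hball⟩ := Metric.isOpen_iff.mp hA.isOpen_compl x hxA
      obtain ⟨b, hb1, hb2, hb3⟩ := ih (min (x / 2) (ε / 2))
        (lt_min (by linarith) (by linarith))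
      have hbx : ∀ i, b i ≤ x / 2 := fun i => (hb2 i).2.trans (min_le_left _ _)
      have hbe : ∀ i, b i ≤ ε / 2 := fun i => (hb2 i).2.trans (min_le_right _ _)
      refine ⟨Fin.snoc (α := fun _ => ℝ) b x, ?_, ?_, ?_⟩
      · intro i j hij
        induction j using Fin.lastCases with
        | last =>
          induction i using Fin.lastCases with
          | last => exact absurd hij (lt_irrefl _)
          | cast i =>
            rw [Fin.snoc_castSucc, Fin.snoc_last]
            have := hbx i
            linarith
        | cast j =>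
          induction i using Fin.lastCases with
          | last => exact absurd hij (not_lt.mpr (Fin.le_last _))
          | cast i =>
            rw [Fin.snoc_castSucc, Fin.snoc_castSucc]
            exact hb1 (Fin.castSucc_lt_castSucc_iff.mp hij)
      · intro i
        induction i using Fin.lastCases with
        | last =>
          rw [Fin.snoc_last]
          exact ⟨hx0, hxc⟩
        | cast i =>
          rw [Fin.snoc_castSucc]
          have := hbx i
          exact ⟨(hb2 i).1, by linarith⟩
      · intro i j hij
        induction j using Fin.lastCases with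
        | last =>
          induction i using Fin.lastCases with
          | last => exact absurd hij (lt_irrefl _)
          | cast i =>
            rw [Fin.snoc_castSucc, Fin.snoc_last]
            apply hball
            rw [Metric.mem_ball, Real.dist_eq]
            have h3 := (hb2 i).1
            have h4 := hbe i
            rw [show x - b i - x = -b i by ring, abs_neg, abs_of_pos h3]
            linarith
        | cast j =>
          induction i using Fin.lastCases with
          | last => exact absurd hij (not_lt.mpr (Fin.le_last _))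
          | cast i =>
            rw [Fin.snoc_castSucc, Fin.snoc_castSucc]
            exact hb3 i j (Fin.castSucc_lt_castSucc_iff.mp hij)
  obtain ⟨b, hb1, hb2, hb3⟩ := h2 N κ hκ
  obtain ⟨i, j, hij, hA'⟩ := h b hb1 (fun i => ⟨(hb2 i).1.le, (hb2 i).2⟩)
  exact hb3 i j hij hA'

/-- Closedness of the set of points which are approached in the sense of `P`. -/
theorem closed_of_perturb (P : ℝ → ℝ → Prop)
    (hP : ∀ x y ε ε' : ℝ, |x - y| ≤ ε' → P y ε → P x (ε + ε')) :
    IsClosed {x : ℝ | ∀ ε : ℝ, 0 < ε → P x ε} := by
  apply isClosed_of_closure_subset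
  intro x hx ε hε
  rw [Metric.mem_closure_iff] at hx
  obtain ⟨y, hy, hxy⟩ := hx (ε / 2) (by linarith)
  rw [Real.dist_eq] at hxy
  have h1 := hP x y (ε / 2) (ε / 2) hxy.le (hy (ε / 2) (by linarith))
  rwa [add_halves] at h1

end Pool.LI
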