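import Pool.Agent.Work.MP_b0c12c_li.Rec

/-! # The interval of limit points at the record scale, final form (helper69) -/

set_option autoImplicit false

namespace Pool.LGR

open Finset Filter
open Pool.LGP Pool.LGC

/-- One logarithm: a bounded additive distance is kept. -/
theorem LPF_log {u v : ℝ} (hu : 2 ≤ u) (h1 : u ≤ v) (h2 : v ≤ u + 2) :
    Real.log u ≤ Real.log v ∧ Real.log v ≤ Real.log u + 2 := by
  have hu0 : 0 < u := by linarith
  refine ⟨Real.log_le_log hu0 h1, ?_⟩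
  have h3 : Real.log v ≤ Real.log (u * 2) := Real.log_le_log (by linarith) (by linarith)
  rw [Real.log_mul hu0.ne' two_ne_zero] at h3
  have := Real.log_two_lt_d9
  linarith

/-- `f(p)` and `f(X)` are asymptotically equal for `X ≤ p ≤ 5 X`. -/
theorem LPF_cmp (η : ℝ) (hη : 0 < η) : ∀ᶠ X : ℕ in atTop, ∀ p : ℕ, X ≤ p → p ≤ 5 * X →
    |ff (p : ℝ) - ff (X : ℝ)| ≤ η * ff (X : ℝ) := by
  have t1 : Tendsto (fun X : ℕ => Real.log (X : ℝ)) atTop atTop :=
    Real.tendsto_log_atTop.comp tendsto_natCast_atTop_atTop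
  have t2 : Tendsto (fun X : ℕ => Real.log (Real.log (X : ℝ))) atTop atTop :=
    Real.tendsto_log_atTop.comp t1
  have t3 : Tendsto (fun X : ℕ => Real.log (Real.log (Real.log (X : ℝ)))) atTop atTop :=
    Real.tendsto_log_atTop.comp t2
  have t4 : Tendsto (fun X : ℕ => Real.log (Real.log (Real.log (Real.log (X : ℝ))))) atTop
      atTop := Real.tendsto_log_atTop.comp t3
  have u1 : ∀ t : ℕ → ℝ, Tendsto t atTop atTop →
      Tendsto (fun X => 1 + 2 / t X) atTop (nhds 1) := by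
    intro t ht
    have : Tendsto (fun X => 1 + 2 / t X) atTop (nhds (1 + 0)) :=
      tendsto_const_nhds.add (ht.const_div_atTop 2)
    simpa using this
  have hup : Tendsto (fun X : ℕ => (1 + 2 / Real.log (X : ℝ)) *
      (1 + 2 / Real.log (Real.log (X : ℝ))) ^ 2 *
      (1 + 2 / Real.log (Real.log (Real.log (Real.log (X : ℝ)))))) atTop (nhds 1) := by
    have := ((u1 _ t1).mul ((u1 _ t2).pow 2)).mul (u1 _ t4)
    simpa using this
  have hlo : Tendsto (fun X : ℕ => ((1 + 2 / Real.log (Real.log (Real.log (X : ℝ)))) ^ 2)⁻¹)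
      atTop (nhds 1) := by
    have := ((u1 _ t3).pow 2).inv₀ (by norm_num)
    simpa using this
  filter_upwards [t1.eventually_ge_atTop 2, t2.eventually_ge_atTop 2, t3.eventually_ge_atTop 2,
    t4.eventually_ge_atTop 2, hup.eventually_le_const (show (1 : ℝ) < 1 + η by linarith),
    hlo.eventually_const_le (show (1 - η : ℝ) < 1 by linarith), eventually_ge_atTop 1]
    with X h1 h2 h3 h4 hU hL hX p hp1 hp2
  have hX0 : (0 : ℝ) < X := by exact_mod_cast hX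
  have e0 : (X : ℝ) ≤ p := by exact_mod_cast hp1
  have e0' : (p : ℝ) ≤ 5 * X := by exact_mod_cast hp2
  have a1 : Real.log (X : ℝ) ≤ Real.log (p : ℝ) := Real.log_le_log hX0 e0
  have a2 : Real.log (p : ℝ) ≤ Real.log (X : ℝ) + 2 := by
    have := Real.log_le_log (by linarith : (0 : ℝ) < p) e0'
    rw [Real.log_mul (by norm_num) hX0.ne'] at this
    have h5 : Real.log 5 ≤ 2 := by
      have h6 : (5 : ℝ) ≤ Real.exp 2 := by
        have h7 : (2.7 : ℝ) ≤ Real.exp 1 := by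
          have := Real.exp_one_gt_d9
          linarith
        calc (5 : ℝ) ≤ 2.7 ^ 2 := by norm_num
          _ ≤ Real.exp 1 ^ 2 := pow_le_pow_left₀ (by norm_num) h7 2
          _ = Real.exp 2 := by rw [← Real.exp_nat_mul]; norm_num
      calc Real.log 5 ≤ Real.log (Real.exp 2) := Real.log_le_log (by norm_num) h6
        _ = 2 := Real.log_exp 2
    linarith
  obtain ⟨b1, b2⟩ := LPF_log h1 a1 a2
  obtain ⟨c1, c2⟩ := LPF_log h2 b1 b2
  obtain ⟨d1, d2⟩ := LPF_log h3 c1 c2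
  set A1 := Real.log (X : ℝ) with hA1
  set A2 := Real.log A1 with hA2
  set A3 := Real.log A2 with hA3
  set A4 := Real.log A3 with hA4
  set B1 := Real.log (p : ℝ) with hB1
  set B2 := Real.log B1 with hB2
  set B3 := Real.log B2 with hB3
  set B4 := Real.log B3 with hB4
  have pA1 : 0 < A1 := by linarith
  have pA2 : 0 < A2 := by linarith
  have pA3 : 0 < A3 := by linarith
  have pA4 : 0 < A4 := by linarith
  have pB1 : 0 < B1 := by linarith
  have pB2 : 0 < B2 := by linarith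
  have pB3 : 0 < B3 := by linarith
  have pB4 : 0 < B4 := by linarith
  have hF : ff (X : ℝ) = A1 * A2 ^ 2 * A4 / A3 ^ 2 := by
    rw [ff]
  have hG : ff (p : ℝ) = B1 * B2 ^ 2 * B4 / B3 ^ 2 := by
    rw [ff]
  have hF0 : 0 < ff (X : ℝ) := by rw [hF]; positivity
  have hup' : ff (p : ℝ) ≤ (1 + η) * ff (X : ℝ) := by
    rw [hG]
    calc B1 * B2 ^ 2 * B4 / B3 ^ 2 ≤ (A1 + 2) * (A2 + 2) ^ 2 * (A4 + 2) / A3 ^ 2 := by
          gcongr
      _ = ((1 + 2 / A1) * (1 + 2 / A2) ^ 2 * (1 + 2 / A4)) * (A1 * A2 ^ 2 * A4 / A3 ^ 2) := by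
          field_simp
      _ ≤ (1 + η) * (A1 * A2 ^ 2 * A4 / A3 ^ 2) := by gcongr
      _ = (1 + η) * ff (X : ℝ) := by rw [hF]
  have hlo' : (1 - η) * ff (X : ℝ) ≤ ff (p : ℝ) := by
    rw [hG]
    calc (1 - η) * ff (X : ℝ) ≤ ((1 + 2 / A3) ^ 2)⁻¹ * ff (X : ℝ) := by gcongr
      _ = A1 * A2 ^ 2 * A4 / (A3 + 2) ^ 2 := by
          rw [hF]
          field_simp
      _ ≤ B1 * B2 ^ 2 * B4 / B3 ^ 2 := by
          gcongr
  rw [abs_le]
  constructor
  · linarith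
  · linarith

/-- Every point of an interval `[0, c]` is a limit point of `(p_(l+1) - p_l) / f(p_l)`, with many
primes. -/
theorem limitPoints (hP : Stmt_PAI) :
    ∀ ε : ℝ, 0 < ε → ∃ c : ℝ, 0 < c ∧ ∀ x : ℝ, 0 ≤ x → x ≤ c → ∀ η : ℝ, 0 < η →
    ∃ᶠ X : ℕ in atTop, (X : ℝ) ^ (1 - ε) ≤ ({l : ℕ | X ≤ Nat.nth Nat.Prime l ∧
      Nat.nth Nat.Prime l ≤ 5 * X ∧
      |((Nat.nth Nat.Prime (l + 1) : ℝ) - Nat.nth Nat.Prime l) -
        x * ff (Nat.nth Nat.Prime l : ℝ)| ≤ η * ff (Nat.nth Nat.Prime l : ℝ)}.ncard : ℝ) := by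
  classical
  intro ε hε
  obtain ⟨c, hc, h⟩ := p_LIM hP ε hε
  refine ⟨c, hc, fun x hx0 hx1 η hη => ?_⟩
  have hff0 : ∀ᶠ X : ℕ in atTop, 0 ≤ ff (X : ℝ) := PAI_ff_tendsto.eventually_ge_atTop 0
  -- the tolerance: x η₁ + η₁ ≤ η / 2, f(p) ≥ f(X) / 2
  obtain ⟨η₁, hη₁, hη₁', hη₁''⟩ : ∃ η₁ : ℝ, 0 < η₁ ∧ (x + 1) * η₁ ≤ η / 2 ∧ η₁ ≤ 1 / 2 := by
    refine ⟨min (η / (2 * (x + 1))) (1 / 2), by positivity, ?_, min_le_right _ _⟩
    calc (x + 1) * min (η / (2 * (x + 1))) (1 / 2) ≤ (x + 1) * (η / (2 * (x + 1))) := by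
          gcongr
          exact min_le_left _ _
      _ = η / 2 := by
          have : x + 1 ≠ 0 := by linarith
          field_simp
  refine ((h x ⟨hx0, hx1⟩ η₁ hη₁).and_eventually ((LPF_cmp η₁ hη₁).and hff0)).mono ?_
  rintro X ⟨h1, h2, h3⟩
  refine h1.trans ?_
  rw [← Set.ncard_coe_finset]
  have hfin : {l : ℕ | X ≤ Nat.nth Nat.Prime l ∧ Nat.nth Nat.Prime l ≤ 5 * X ∧
      |((Nat.nth Nat.Prime (l + 1) : ℝ) - Nat.nth Nat.Prime l) -
        x * ff (Nat.nth Nat.Prime l : ℝ)| ≤ η * ff (Nat.nth Nat.Prime l : ℝ)}.Finite := by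
    refine (Set.finite_Iic (5 * X)).subset ?_
    rintro l ⟨-, h5, -⟩
    rw [Set.mem_Iic]
    have h4 : l + 2 ≤ Nat.nth Nat.Prime l := Nat.add_two_le_nth_prime l
    omega
  have := Set.ncard_le_ncard (s := ((LV X x η₁ : Finset ℕ) : Set ℕ)) (fun l hl => by
    unfold LV at hl
    rw [mem_coe, mem_filter, mem_range] at hl
    obtain ⟨-, g1, g2, g3⟩ := hl
    refine ⟨g1, g2, ?_⟩
    have g4 := h2 _ g1 g2
    obtain ⟨g5, g6⟩ := abs_le.1 g4
    have g7 : ff (X : ℝ) ≤ 2 * ff (Nat.nth Nat.Prime l : ℝ) := by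
      have : η₁ * ff (X : ℝ) ≤ 1 / 2 * ff (X : ℝ) := by gcongr
      linarith
    have g8 : ((Nat.nth Nat.Prime (l + 1) : ℝ) - Nat.nth Nat.Prime l) -
        x * ff (Nat.nth Nat.Prime l : ℝ) =
        (((Nat.nth Nat.Prime (l + 1) : ℝ) - Nat.nth Nat.Prime l) - x * ff (X : ℝ)) -
        x * (ff (Nat.nth Nat.Prime l : ℝ) - ff (X : ℝ)) := by ring
    rw [g8]
    refine (abs_sub _ _).trans ?_
    rw [abs_mul, abs_of_nonneg hx0]
    calc |((Nat.nth Nat.Prime (l + 1) : ℝ) - Nat.nth Nat.Prime l) - x * ff (X : ℝ)| +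
          x * |ff (Nat.nth Nat.Prime l : ℝ) - ff (X : ℝ)|
        ≤ η₁ * ff (X : ℝ) + x * (η₁ * ff (X : ℝ)) := by gcongr
      _ = (x + 1) * η₁ * ff (X : ℝ) := by ring
      _ ≤ η / 2 * ff (X : ℝ) := by gcongr
      _ ≤ η / 2 * (2 * ff (Nat.nth Nat.Prime l : ℝ)) := by gcongr
      _ = η * ff (Nat.nth Nat.Prime l : ℝ) := by ring) hfin
  exact_mod_cast this

end Pool.LGR
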